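import Pool.Agent.L7h34.BO.Stm
import Pool.Agent.L7h10.BP.POL

set_option autoImplicit false

/-! # Part POLO of project BO: the polar quadratic factor, odd degree -/

namespace Pool.Agent.L7h61.BO

open Pool.Agent.L7h58.BP Pool.Agent.L7h34.BO Pool.Agent.H319B Finset Polynomial
open Pool.Agent.L7h10.BP (sym_shape coeff_two bernoulli_natDegree)

/-- primitive form of the cubic -/
noncomputable def E3 : ℤ[X] := X * (2 * X - 1) * (X - 1)

theorem two_X_prim : (2 * X - 1 : ℤ[X]).IsPrimitive := by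
  intro r hr
  rw [C_dvd_iff_dvd_coeff] at hr
  have h0 := hr 0
  have h1 : (2 * X - 1 : ℤ[X]).coeff 0 = -1 := by
    have : (2 * X - 1 : ℤ[X]) = C 2 * X - C 1 := by simp
    rw [this]
    simp [-eq_intCast]
  rw [h1] at h0
  exact isUnit_of_dvd_unit h0 (by norm_num)

theorem E3_prim : E3.IsPrimitive := by
  unfold E3
  have h1 : (X : ℤ[X]).IsPrimitive := monic_X.isPrimitive
  have h2 : (X - 1 : ℤ[X]).IsPrimitive := by
    have := (monic_X_sub_C (1 : ℤ)).isPrimitive
    rwa [C_1] at this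
  exact (h1.mul two_X_prim).mul h2

theorem lead_two : (2 * X - 1 : ℤ[X]).leadingCoeff = 2 ∧ (2 * X - 1 : ℤ[X]).natDegree = 1 := by
  have h1 : (2 * X - 1 : ℤ[X]) = C 2 * X + C (-1) := by simp [sub_eq_add_neg]
  constructor
  · rw [h1, leadingCoeff_linear (by norm_num)]
  · rw [h1, natDegree_linear (by norm_num)]

theorem E3_lead : E3.leadingCoeff = 2 := by
  unfold E3
  rw [leadingCoeff_mul, leadingCoeff_mul, leadingCoeff_X, lead_two.1]
  have : (X - 1 : ℤ[X]).leadingCoeff = 1 := by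
    have := (monic_X_sub_C (1 : ℤ)).leadingCoeff
    rwa [C_1] at this
  rw [this]
  norm_num

theorem E3_map : E3.map (Int.castRingHom ℚ) = C 2 * (X * (X - C (1 / 2)) * (X - C 1)) := by
  unfold E3
  have h1 : (C (1 / 2 : ℚ) : ℚ[X]) * 2 = 1 := by
    have : (2 : ℚ[X]) = C 2 := (map_ofNat C 2).symm
    rw [this, ← C_mul]
    norm_num
  have h2 : (C 2 : ℚ[X]) = 2 := map_ofNat C 2
  rw [h2, C_1]
  simp only [Polynomial.map_mul, Polynomial.map_sub, Polynomial.map_X, Polynomial.map_one,
    Polynomial.map_ofNat]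
  linear_combination (X * (X - 1)) * h1

theorem E3_mod : E3.map (Int.castRingHom (ZMod 3)) = 2 * (X ^ 3 - X) := by
  unfold E3
  simp only [Polynomial.map_mul, Polynomial.map_sub, Polynomial.map_X, Polynomial.map_one,
    Polynomial.map_ofNat]
  have h3 : (3 : (ZMod 3)[X]) = 0 := by
    have : (3 : (ZMod 3)[X]) = C 3 := (map_ofNat C 3).symm
    rw [this]
    have h : (3 : ZMod 3) = 0 := by decide
    rw [h, C_0]
  linear_combination (-(X ^ 2) * 1 + X) * h3

theorem s_POLO (hR : S_REDO) (hN : S_NRTO) : S_POLO := by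
  intro q f hq hq3 hq8 hfd hfs hdvd
  set n : ℕ := 3 * q + 2 with hn
  have hno : Odd n := by
    rw [Nat.odd_iff]
    omega
  have hn5 : 5 ≤ n := by omega
  obtain ⟨a1, c, ha1, hfc⟩ := sym_shape f hfd hfs
  obtain ⟨hB, hRm, -⟩ := Rn_spec n (by omega) hno
  have hgR : (X ^ 2 - X + C c) ∣ Rn n := by
    obtain ⟨h, hh⟩ := hdvd
    refine ⟨C a1 * h, ?_⟩
    rw [hh, hfc]
    ring
  have hg : (X ^ 2 - X + C c) ∣ Polynomial.bernoulli n := by
    rw [hB]
    exact Dvd.dvd.mul_left hgR _
  obtain ⟨P, hP, hPl⟩ := hR n hno (by omega)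
  set D : ℕ := primorial (n + 1) with hD
  have hDpos : 0 < D := primorial_pos _
  have hDq : (D : ℚ) ≠ 0 := Nat.cast_ne_zero.2 hDpos.ne'
  have hsq : Squarefree D := squarefree_primorial _
  have hinj : Function.Injective (Int.castRingHom ℚ) := Int.cast_injective
  obtain ⟨hdB, hlB⟩ := bernoulli_natDegree n
  set a : ℕ := c.den with ha
  have ha0 : 0 < a := c.pos
  set F : ℤ[X] := C (a : ℤ) * X ^ 2 - C (a : ℤ) * X + C c.num with hF
  have hFc2 : F.coeff 2 = a := by
    rw [hF]; simp [coeff_X, coeff_C, -eq_intCast]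
  have hFc0 : F.coeff 0 = c.num := by
    rw [hF]; simp [-eq_intCast]
  have hFdeg : F.natDegree = 2 := by
    apply le_antisymm
    · rw [natDegree_le_iff_coeff_eq_zero]
      intro j hj
      rw [hF]
      simp [coeff_X, coeff_C, show j ≠ 0 by omega, show j ≠ 2 by omega, show 1 ≠ j by omega,
        -eq_intCast]
    · apply le_natDegree_of_ne_zero
      rw [hFc2]
      exact_mod_cast ha0.ne'
  have hFlead : F.leadingCoeff = a := by rw [leadingCoeff, hFdeg, hFc2]
  have hcop : IsCoprime (c.num) (a : ℤ) := by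
    rw [Int.isCoprime_iff_nat_coprime]
    simpa using c.reduced
  have hFprim : F.IsPrimitive := by
    intro r hr
    rw [C_dvd_iff_dvd_coeff] at hr
    have h0 := hr 0
    have h2 := hr 2
    rw [hFc0] at h0
    rw [hFc2] at h2
    exact hcop.isUnit_of_dvd' h0 h2
  have hFmap : F.map (Int.castRingHom ℚ) = C (a : ℚ) * (X ^ 2 - X + C c) := by
    rw [hF]
    have h1 : (C (c.num : ℚ) : ℚ[X]) = C (a : ℚ) * C c := by
      rw [← C_mul]
      congr 1
      rw [mul_comm]
      exact (Rat.mul_den_eq_num c).symm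
    simp only [Polynomial.map_add, Polynomial.map_sub, Polynomial.map_mul, Polynomial.map_C,
      Polynomial.map_pow, Polynomial.map_X]
    have h2 : (Int.castRingHom ℚ) (a : ℤ) = (a : ℚ) := by simp
    have h3 : (Int.castRingHom ℚ) c.num = (c.num : ℚ) := rfl
    rw [h2, h3, h1]
    ring
  have haq : (a : ℚ) ≠ 0 := Nat.cast_ne_zero.2 ha0.ne'
  have hFP : F * E3 ∣ P := by
    rw [IsPrimitive.Int.dvd_iff_map_cast_dvd_map_cast (F * E3) P (hFprim.mul E3_prim), hP,
      Polynomial.map_mul, hFmap, E3_map, hB]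
    obtain ⟨h, hh⟩ := hgR
    refine ⟨C ((D : ℚ) / (2 * a)) * h, ?_⟩
    rw [hh]
    have : (C (a : ℚ) : ℚ[X]) * C 2 * C ((D : ℚ) / (2 * a)) = C (D : ℚ) := by
      rw [← C_mul, ← C_mul]
      congr 1
      field_simp
    linear_combination (-(X ^ 2 - X + C c) * h * (X * (X - C (1 / 2)) * (X - C 1))) * this
  obtain ⟨G₁, hG₁⟩ := hFP
  set G : ℤ[X] := E3 * G₁ with hGdef
  have hG : P = F * G := by rw [hG₁, hGdef]; ring
  have hPlead : P.leadingCoeff = D := by
    have h1 : (P.map (Int.castRingHom ℚ)).leadingCoeff = (D : ℚ) := by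
      rw [hP, leadingCoeff_mul, hlB, leadingCoeff_C, mul_one]
    rw [leadingCoeff_map_of_injective hinj] at h1
    have h2 : ((P.leadingCoeff : ℤ) : ℚ) = ((D : ℤ) : ℚ) := by
      rw [Int.cast_natCast]
      exact h1
    exact_mod_cast h2
  have hPdeg : P.natDegree = n := by
    rw [← natDegree_map_eq_of_injective hinj, hP, natDegree_C_mul hDq, hdB]
  have hP0 : P ≠ 0 := by
    intro h
    rw [h, leadingCoeff_zero] at hPlead
    have : (D : ℤ) ≠ 0 := by exact_mod_cast hDpos.ne'
    exact this hPlead.symm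
  have hF0 : F ≠ 0 := by
    intro h
    rw [h, zero_mul] at hG
    exact hP0 hG
  have hG0 : G ≠ 0 := by
    intro h
    rw [h, mul_zero] at hG
    exact hP0 hG
  have hGdeg : G.natDegree = n - 2 := by
    have := natDegree_mul hF0 hG0
    rw [← hG, hPdeg, hFdeg] at this
    omega
  have hlead : (a : ℤ) * G.leadingCoeff = D := by
    rw [← hFlead, ← leadingCoeff_mul, ← hG, hPlead]
  have haD : a ∣ D := by
    have : (a : ℤ) ∣ (D : ℤ) := ⟨_, hlead.symm⟩
    exact_mod_cast this
  have hasq : Squarefree a := hsq.squarefree_of_dvd haD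
  have hP2 : 6 * P.coeff (n - 2) = D * (n.choose 2 : ℤ) := by
    have h1 : (P.map (Int.castRingHom ℚ)).coeff (n - 2) =
        D * (Polynomial.bernoulli n).coeff (n - 2) := by
      rw [hP, coeff_C_mul]
    rw [coeff_map, eq_intCast] at h1
    have h2 := coeff_two n (by omega)
    have h3 : (6 : ℚ) * (P.coeff (n - 2) : ℚ) = D * (n.choose 2 : ℚ) := by
      rw [h1, ← h2]
      ring
    exact_mod_cast h3
  -- primes which divide a and the leading coefficient of G do not exist
  have hnosq : ∀ p : ℕ, p.Prime → p ∣ a → ¬ (p : ℤ) ∣ G.leadingCoeff := by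
    intro p hp hpa h5
    have hpaZ : (p : ℤ) ∣ (a : ℤ) := by exact_mod_cast hpa
    have h6 : ((p * p : ℕ) : ℤ) ∣ (D : ℤ) := by
      rw [← hlead, Nat.cast_mul]
      exact mul_dvd_mul hpaZ h5
    have h7 : p * p ∣ D := by exact_mod_cast h6
    have h8 := hsq p h7
    exact hp.one_lt.ne' (Nat.isUnit_iff.mp h8)
  -- primes at least 5 do not divide a
  have hbig : ∀ p : ℕ, p.Prime → p ∣ a → p = 3 := by
    intro p hp hpa
    have hpaZ : (p : ℤ) ∣ (a : ℤ) := by exact_mod_cast hpa
    have hpp : Prime (p : ℤ) := Nat.prime_iff_prime_int.mp hp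
    by_contra hcon
    by_cases h22 : p = 2
    · apply hnosq p hp hpa
      rw [hGdef, leadingCoeff_mul, E3_lead, h22]
      exact Dvd.intro _ rfl
    have hp5 : ¬ p ∣ 6 := by
      intro h
      have h6 : p ∣ 2 * 3 := h
      rcases hp.dvd_mul.mp h6 with h | h
      · exact h22 ((Nat.prime_dvd_prime_iff_eq hp Nat.prime_two).mp h)
      · exact hcon ((Nat.prime_dvd_prime_iff_eq hp Nat.prime_three).mp h)
    have h1 : (p : ℤ) ∣ P.coeff (n - 2) := by
      have h2 : (p : ℤ) ∣ 6 * P.coeff (n - 2) := by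
        rw [hP2]
        apply Dvd.dvd.mul_right
        exact_mod_cast hpa.trans haD
      rcases hpp.dvd_or_dvd h2 with h | h
      · exfalso
        apply hp5
        exact_mod_cast h
      · exact h
    have h2 : P.coeff (n - 2) = a * ((X ^ 2 - X) * G).coeff (n - 2) +
        c.num * G.coeff (n - 2) := by
      have : P = C (a : ℤ) * ((X ^ 2 - X) * G) + C c.num * G := by
        rw [hG, hF]
        ring
      rw [this, coeff_add, coeff_C_mul, coeff_C_mul]
    have h3 : (p : ℤ) ∣ c.num * G.coeff (n - 2) := by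
      have h4 : (p : ℤ) ∣ a * ((X ^ 2 - X) * G).coeff (n - 2) := hpaZ.mul_right _
      rw [h2] at h1
      exact (dvd_add_right h4).mp h1
    have h4 : ¬ (p : ℤ) ∣ c.num := by
      intro h5
      exact hpp.not_unit (hcop.isUnit_of_dvd' h5 hpaZ)
    apply hnosq p hp hpa
    rw [leadingCoeff, hGdeg]
    exact (hpp.dvd_or_dvd h3).resolve_left h4
  have ha3 : a ∣ 3 := by
    rw [← Nat.prod_primeFactors_of_squarefree hasq]
    have : a.primeFactors ⊆ ({3} : Finset ℕ) := by
      intro p hp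
      rw [Nat.mem_primeFactors] at hp
      simp [hbig p hp.1 hp.2.1]
    exact (Finset.prod_dvd_prod_of_subset _ _ _ this).trans (by decide)
  have h3a : 3 ∣ a := by
    by_contra h3
    have : Fact (Nat.Prime 3) := ⟨Nat.prime_three⟩
    obtain ⟨u, hu, hPu⟩ := hPl 3 Nat.prime_three (by norm_num) (by omega)
    apply hN n (by omega) (by omega) (F.map (Int.castRingHom (ZMod 3)))
    · refine ⟨C u⁻¹ * 2 * G₁.map (Int.castRingHom (ZMod 3)), ?_⟩
      have h1 : C u * Sp 3 n = F.map (Int.castRingHom (ZMod 3)) * (2 * (X ^ 3 - X)) *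
          G₁.map (Int.castRingHom (ZMod 3)) := by
        rw [← hPu, ← E3_mod, hG, hGdef, Polynomial.map_mul, Polynomial.map_mul]
        ring
      have h2 : C u⁻¹ * C u = (1 : (ZMod 3)[X]) := by
        rw [← C_mul, inv_mul_cancel₀ hu, C_1]
      linear_combination (C u⁻¹) * h1 - (Sp 3 n) * h2
    · rw [natDegree_map_of_leadingCoeff_ne_zero, hFdeg]
      rw [hFlead]
      intro h0
      apply h3
      rw [eq_intCast, Int.cast_natCast, ZMod.natCast_eq_zero_iff] at h0
      exact h0
  have ha_eq : a = 3 := Nat.dvd_antisymm ha3 h3a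
  have h3N : ¬ (3 : ℤ) ∣ c.num := by
    intro h
    have h3a' : (3 : ℤ) ∣ (a : ℤ) := by exact_mod_cast h3a
    exact Int.prime_three.not_unit (hcop.isUnit_of_dvd' h h3a')
  refine ⟨3 - 4 * c.num, ?_, ?_⟩
  · intro h
    have h1 : (3 : ℤ) ∣ 4 * c.num := by
      have := dvd_sub (dvd_refl (3 : ℤ)) h
      rwa [sub_sub_cancel] at this
    rcases Int.prime_three.dvd_or_dvd h1 with h | h
    · revert h
      decide
    · exact h3N h
  · have h1 : (((3 - (3 - 4 * c.num) : ℤ)) : ℚ) / 12 = c := by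
      have h2 : c = c.num / (a : ℚ) := (Rat.num_div_den c).symm
      rw [ha_eq] at h2
      conv_rhs => rw [h2]
      push_cast
      ring
    rw [h1]
    exact hg

end Pool.Agent.L7h61.BO
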